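import Mathlib

/-!
# Linear and semidefinite programming formulations of the clique problem

The definitions used by the statement of the lower bound.
-/

set_option autoImplicit false

namespace Pool.Agent.TH697.LPClique

open Classical in
/-- the number of pairs of vertices in `S` which are not edges of the graph `G` -/
noncomputable def missing {n : ℕ} (G : SimpleGraph (Fin n)) (S : Finset (Fin n)) : ℕ :=
  ((S ×ˢ S).filter (fun p => p.1 < p.2 ∧ ¬ G.Adj p.1 p.2)).card

/-- A linear programming formulation, with `s` inequalities, of the `k`-clique problem for graphs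
with vertex set `{0, ..., n-1}`: a system of `s` linear inequalities `∑ j, A i j * u j ≤ b i` and of
any number `t` of linear equations `∑ j, A' i j * u j = b' i` in any number `d` of real variables
(the same system for all graphs), and a solution `point S` of this system for every set `S` of `k`
vertices. -/
structure LPFormulation (n k s : ℕ) where
  /-- number of variables -/
  d : ℕ
  /-- number of equations -/
  t : ℕ
  A : Fin s → Fin d → ℝ
  b : Fin s → ℝ
  A' : Fin t → Fin d → ℝ
  b' : Fin t → ℝ
  /-- the solution which represents a set of `k` vertices -/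
  point : Finset (Fin n) → Fin d → ℝ
  feasible : ∀ S : Finset (Fin n), S.card = k →
    (∀ i, ∑ j, A i j * point S j ≤ b i) ∧ ∀ i, ∑ j, A' i j * point S j = b' i

/-- The linear program shows that `G` has no `k`-clique, with margin `δ`: there is an affine
objective function whose value at `point S` is the number of pairs in `S` which are not edges of
`G`, for every set `S` of `k` vertices, and whose minimum over all solutions of the system is at
least `δ`. -/
def LPFormulation.Certifies {n k s : ℕ} (P : LPFormulation n k s) (G : SimpleGraph (Fin n))
    (δ : ℝ) : Prop :=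
  ∃ (w : Fin P.d → ℝ) (w₀ : ℝ),
    (∀ S : Finset (Fin n), S.card = k → ∑ j, w j * P.point S j + w₀ = missing G S) ∧
    ∀ u : Fin P.d → ℝ, (∀ i, ∑ j, P.A i j * u j ≤ P.b i) → (∀ i, ∑ j, P.A' i j * u j = P.b' i) →
      δ ≤ ∑ j, w j * u j + w₀

/-- A semidefinite programming formulation, of order `m` and with `s` linear inequalities, of the
`k`-clique problem for graphs with vertex set `{0, ..., n-1}`: as above, with the additional
constraint that the symmetric matrix `M₀ + ∑ j, u j • M j` with `m` rows is positive semidefinite. -/
structure SDPFormulation (n k m s : ℕ) where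
  /-- number of variables -/
  d : ℕ
  /-- number of equations -/
  t : ℕ
  M₀ : Matrix (Fin m) (Fin m) ℝ
  M : Fin d → Matrix (Fin m) (Fin m) ℝ
  A : Fin s → Fin d → ℝ
  b : Fin s → ℝ
  A' : Fin t → Fin d → ℝ
  b' : Fin t → ℝ
  /-- the solution which represents a set of `k` vertices -/
  point : Finset (Fin n) → Fin d → ℝ
  feasible : ∀ S : Finset (Fin n), S.card = k → (M₀ + ∑ j, point S j • M j).PosSemidef ∧
    (∀ i, ∑ j, A i j * point S j ≤ b i) ∧ ∀ i, ∑ j, A' i j * point S j = b' i

/-- The semidefinite program shows that `G` has no `k`-clique, with margin `δ`. -/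
def SDPFormulation.Certifies {n k m s : ℕ} (P : SDPFormulation n k m s)
    (G : SimpleGraph (Fin n)) (δ : ℝ) : Prop :=
  ∃ (w : Fin P.d → ℝ) (w₀ : ℝ),
    (∀ S : Finset (Fin n), S.card = k → ∑ j, w j * P.point S j + w₀ = missing G S) ∧
    ∀ u : Fin P.d → ℝ, (P.M₀ + ∑ j, u j • P.M j).PosSemidef →
      (∀ i, ∑ j, P.A i j * u j ≤ P.b i) → (∀ i, ∑ j, P.A' i j * u j = P.b' i) →
      δ ≤ ∑ j, w j * u j + w₀

/-- the complete multipartite graph whose parts are the fibres of `f` (some may be empty): two
vertices are adjacent iff they are in different parts -/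
def multipartite {n h : ℕ} (f : Fin n → Fin h) : SimpleGraph (Fin n) :=
  (⊤ : SimpleGraph (Fin h)).comap f

end Pool.Agent.TH697.LPClique
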