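import Mathlib
import Pool.Agent.TH697.LPClique.Defs
import Pool.Agent.TH689.LXRank
import Pool.Agent.H575R2.Farkas

/-!
From linear programming formulations of the clique problem to nonnegative factorizations of the
matrix of the numbers of collisions.
-/

set_option autoImplicit false

namespace Pool.Agent.TH697.LPClique

open Finset Pool.Agent.TH689.LX

/-- linear functional with given coefficients -/
noncomputable def lin {d : ℕ} (a : Fin d → ℝ) : (Fin d → ℝ) →ₗ[ℝ] ℝ :=
  ∑ j, a j • LinearMap.proj j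

theorem lin_apply {d : ℕ} (a x : Fin d → ℝ) : lin a x = ∑ j, a j * x j := by
  unfold lin
  simp [LinearMap.sum_apply]

/-- the multipliers for one graph -/
theorem certify_farkas {n k s : ℕ} (L : LPFormulation n k s) {G : SimpleGraph (Fin n)} {δ : ℝ}
    (hF : L.Certifies G δ) (S₀ : Finset (Fin n)) (hS₀ : S₀.card = k) :
    ∃ (w0 : ℝ) (w : Fin s → ℝ), 0 ≤ w0 ∧ (∀ i, 0 ≤ w i) ∧ ∀ S : Finset (Fin n), S.card = k →
      (missing G S : ℝ) - δ = w0 + ∑ i, w i * (L.b i - ∑ j, L.A i j * L.point S j) := by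
  obtain ⟨c, c₀, hval, hlow⟩ := hF
  let ℓ : Fin (s + (L.t + L.t)) → ((Fin L.d → ℝ) →ₗ[ℝ] ℝ) :=
    Fin.append (fun i => lin (L.A i)) (Fin.append (fun i => lin (L.A' i)) (fun i => - lin (L.A' i)))
  let bb : Fin (s + (L.t + L.t)) → ℝ := Fin.append L.b (Fin.append L.b' (fun i => - L.b' i))
  have hiff : ∀ x, (∀ i, ℓ i x ≤ bb i) ↔
      (∀ i, ∑ j, L.A i j * x j ≤ L.b i) ∧ ∀ i, ∑ j, L.A' i j * x j = L.b' i := by
    intro x
    constructor
    · intro h
      refine ⟨fun i => ?_, fun i => ?_⟩
      · have := h (Fin.castAdd _ i)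
        simp only [ℓ, bb, Fin.append_left, lin_apply] at this
        exact this
      · have h1 := h (Fin.natAdd s (Fin.castAdd _ i))
        have h2 := h (Fin.natAdd s (Fin.natAdd L.t i))
        simp only [ℓ, bb, Fin.append_left, Fin.append_right, lin_apply, LinearMap.neg_apply] at h1 h2
        linarith
    · rintro ⟨h1, h2⟩ i
      refine Fin.addCases (fun i => ?_) (fun i => ?_) i
      · simp only [ℓ, bb, Fin.append_left, lin_apply]
        exact h1 i
      · refine Fin.addCases (fun i => ?_) (fun i => ?_) i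
        · simp only [ℓ, bb, Fin.append_left, Fin.append_right, lin_apply]
          exact (h2 i).le
        · simp only [ℓ, bb, Fin.append_right, lin_apply, LinearMap.neg_apply]
          rw [h2 i]
  obtain ⟨w0, w, hw0, hw, hfw⟩ := H575R2.farkas_affine (s + (L.t + L.t)) ℓ bb
    (- lin c) (c₀ - δ) (L.point S₀) ((hiff _).mpr (L.feasible S₀ hS₀)) (by
      intro x hx
      obtain ⟨h1, h2⟩ := (hiff x).mp hx
      have := hlow x h1 h2
      rw [LinearMap.neg_apply, lin_apply]
      linarith)
  refine ⟨w0, fun i => w (Fin.castAdd _ i), hw0, fun i => hw _, fun S hS => ?_⟩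
  have h1 := hfw (L.point S)
  have h2 := hval S hS
  have h3 := (L.feasible S hS).2
  rw [LinearMap.neg_apply, lin_apply, Fin.sum_univ_add, Fin.sum_univ_add] at h1
  simp only [ℓ, bb, Fin.append_left, Fin.append_right, lin_apply, LinearMap.neg_apply, h3,
    sub_self, mul_zero, Finset.sum_const_zero, add_zero] at h1
  rw [← h2]
  linarith

/-- unordered and ordered pairs -/
lemma two_mul_lt {α : Type*} [LinearOrder α] (S : Finset α) (R : α → α → Prop)
    [DecidableRel R] (hR : ∀ a b, R a b → R b a) :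
    2 * ((S ×ˢ S).filter (fun p => p.1 < p.2 ∧ R p.1 p.2)).card
      = ((S ×ˢ S).filter (fun p => p.1 ≠ p.2 ∧ R p.1 p.2)).card := by
  classical
  have h1 : (S ×ˢ S).filter (fun p => p.1 ≠ p.2 ∧ R p.1 p.2)
      = (S ×ˢ S).filter (fun p => p.1 < p.2 ∧ R p.1 p.2) ∪
        (S ×ˢ S).filter (fun p => p.2 < p.1 ∧ R p.1 p.2) := by
    ext p
    simp only [mem_filter, mem_product, mem_union]
    constructor
    · rintro ⟨h, hne, hr⟩
      rcases lt_or_gt_of_ne hne with h' | h'
      · exact Or.inl ⟨h, h', hr⟩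
      · exact Or.inr ⟨h, h', hr⟩
    · rintro (⟨h, hlt, hr⟩ | ⟨h, hlt, hr⟩)
      · exact ⟨h, ne_of_lt hlt, hr⟩
      · exact ⟨h, (ne_of_lt hlt).symm, hr⟩
  have h2 : ((S ×ˢ S).filter (fun p => p.2 < p.1 ∧ R p.1 p.2)).card
      = ((S ×ˢ S).filter (fun p => p.1 < p.2 ∧ R p.1 p.2)).card := by
    refine Finset.card_bij' (fun p _ => (p.2, p.1)) (fun p _ => (p.2, p.1)) ?_ ?_
      (fun _ _ => rfl) (fun _ _ => rfl)
    · intro p hp
      simp only [mem_filter, mem_product] at hp ⊢
      exact ⟨⟨hp.1.2, hp.1.1⟩, hp.2.1, hR _ _ hp.2.2⟩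
    · intro p hp
      simp only [mem_filter, mem_product] at hp ⊢
      exact ⟨⟨hp.1.2, hp.1.1⟩, hp.2.1, hR _ _ hp.2.2⟩
  rw [h1, Finset.card_union_of_disjoint, h2, two_mul]
  rw [Finset.disjoint_left]
  intro p hp hp'
  exact lt_asymm (mem_filter.1 hp).2.1 (mem_filter.1 hp').2.1

section graph

variable {n k K q H h U : ℕ}

/-- the colours of the vertices -/
def colr (cc : Fin H ⊕ Fin U → Fin h) (y : Fin K → Fin q → Fin H) :
    (Fin K × Fin q) ⊕ Fin U → Fin h
  | Sum.inl p => cc (Sum.inl (y p.1 p.2))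
  | Sum.inr u => cc (Sum.inr u)

/-- the parts of the graph -/
noncomputable def parts (e : (Fin K × Fin q) ⊕ Fin U → Fin n) (cc : Fin H ⊕ Fin U → Fin h)
    (c₀ : Fin h) (y : Fin K → Fin q → Fin H) : Fin n → Fin h :=
  Function.extend e (colr cc y) (fun _ => c₀)

/-- the vertices chosen -/
def sel (x : Fin K → Fin q) : Fin K ⊕ Fin U → (Fin K × Fin q) ⊕ Fin U
  | Sum.inl i => Sum.inl (i, x i)
  | Sum.inr u => Sum.inr u

lemma sel_inj (x : Fin K → Fin q) : Function.Injective (sel (U := U) x) := by
  intro a b hab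
  rcases a with a | a <;> rcases b with b | b <;> simp [sel] at hab
  · rw [hab.1]
  · rw [hab]

/-- the set of chosen vertices -/
def chosen (e : (Fin K × Fin q) ⊕ Fin U → Fin n) (x : Fin K → Fin q) : Finset (Fin n) :=
  Finset.univ.image (fun a => e (sel x a))

lemma chosen_card {e : (Fin K × Fin q) ⊕ Fin U → Fin n} (he : Function.Injective e)
    (x : Fin K → Fin q) : (chosen e x).card = K + U := by
  unfold chosen
  rw [Finset.card_image_of_injective (f := fun a => e (sel x a)) _ (he.comp (sel_inj x)),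
    Finset.card_univ, Fintype.card_sum, Fintype.card_fin, Fintype.card_fin]

lemma missing_multipartite (f : Fin n → Fin h) (S : Finset (Fin n)) :
    2 * missing (multipartite f) S
      = ((S ×ˢ S).filter (fun p => p.1 ≠ p.2 ∧ f p.1 = f p.2)).card := by
  classical
  rw [← two_mul_lt S (fun a b => f a = f b) (fun a b hab => hab.symm)]
  unfold missing multipartite
  congr 2
  ext p
  simp only [mem_filter, SimpleGraph.comap_adj, SimpleGraph.top_adj, ne_eq, not_not]

theorem missing_eq {e : (Fin K × Fin q) ⊕ Fin U → Fin n} (he : Function.Injective e)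
    {cc : Fin H ⊕ Fin U → Fin h} (hcc : Function.Injective cc) (c₀ : Fin h)
    (y : Fin K → Fin q → Fin H) (x : Fin K → Fin q) :
    missing (multipartite (parts e cc c₀ y)) (chosen e x) = viol (comp y x) := by
  classical
  have h1 := missing_multipartite (parts e cc c₀ y) (chosen e x)
  have h2 : 2 * viol (comp y x) = (((Finset.univ : Finset (Fin K)) ×ˢ Finset.univ).filter
      (fun p : Fin K × Fin K => p.1 ≠ p.2 ∧ comp y x p.1 = comp y x p.2)).card := by
    rw [← two_mul_lt (Finset.univ : Finset (Fin K)) (fun a b => comp y x a = comp y x b)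
      (fun a b hab => hab.symm)]
    unfold viol
    rw [Finset.univ_product_univ]
  have hpart : ∀ z, parts e cc c₀ y (e z) = colr cc y z := fun z => he.extend_apply _ _ _
  have h3 : (((Finset.univ : Finset (Fin K)) ×ˢ Finset.univ).filter
      (fun p : Fin K × Fin K => p.1 ≠ p.2 ∧ comp y x p.1 = comp y x p.2)).card
      = ((chosen e x ×ˢ chosen e x).filter
        (fun p => p.1 ≠ p.2 ∧ parts e cc c₀ y p.1 = parts e cc c₀ y p.2)).card := by
    apply Finset.card_bij (fun p _ => (e (Sum.inl (p.1, x p.1)), e (Sum.inl (p.2, x p.2))))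
    · intro p hp
      simp only [mem_filter, mem_product, mem_univ, true_and] at hp
      simp only [mem_filter, mem_product]
      refine ⟨⟨?_, ?_⟩, ?_, ?_⟩
      · exact mem_image.2 ⟨Sum.inl p.1, mem_univ _, rfl⟩
      · exact mem_image.2 ⟨Sum.inl p.2, mem_univ _, rfl⟩
      · intro hh
        have := he hh
        simp only [Sum.inl.injEq, Prod.mk.injEq] at this
        exact hp.1 this.1
      · rw [hpart, hpart]
        simp only [colr]
        have := hp.2
        unfold comp at this
        rw [this]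
    · intro p hp p' hp' hh
      simp only [Prod.mk.injEq] at hh
      have h4 := he hh.1
      have h5 := he hh.2
      simp only [Sum.inl.injEq, Prod.mk.injEq] at h4 h5
      exact Prod.ext h4.1 h5.1
    · rintro ⟨a, b⟩ hp
      simp only [mem_filter, mem_product] at hp
      obtain ⟨⟨ha, hb⟩, hne, hcol⟩ := hp
      obtain ⟨a', _, rfl⟩ := mem_image.1 ha
      obtain ⟨b', _, rfl⟩ := mem_image.1 hb
      rw [hpart, hpart] at hcol
      have hab : a' ≠ b' := fun hh => hne (by rw [hh])
      rcases a' with a' | a' <;> rcases b' with b' | b'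
      · simp only [sel, colr] at hcol
        have h4 := hcc hcol
        simp only [Sum.inl.injEq] at h4
        refine ⟨(a', b'), ?_, rfl⟩
        simp only [mem_filter, mem_product, mem_univ, true_and]
        exact ⟨fun hh => hab (by rw [hh]), h4⟩
      · simp only [sel, colr] at hcol
        exact absurd (hcc hcol) (by simp)
      · simp only [sel, colr] at hcol
        exact absurd (hcc hcol) (by simp)
      · simp only [sel, colr] at hcol
        have h4 := hcc hcol
        simp only [Sum.inr.injEq] at h4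
        exact absurd (by rw [h4]) hab
  omega

end graph

/-- the finite form of the lower bound -/
theorem clique_finite {n k K q H h : ℕ} (hKk : K ≤ k) (hn : K * q + (k - K) ≤ n)
    (hh : H + (k - K) ≤ h) (hH : 2 ≤ H) (hq : 1 ≤ q) {r l : ℝ} (hr : 0 < r)
    (hl : 0 ≤ l) {m₀ D : ℕ} (hD : D + m₀ ≤ H + 1) (hm₀ : 1 ≤ m₀) (hlr : l * r ≤ 1)
    (hsm : (1 + 2 * H * (l * r)) ^ K ≤ 2)
    (hrq : 1 ≤ r ^ 2 * (q : ℝ)) {δ : ℝ} (hδ : 0 ≤ δ) {s : ℕ} (P : LPFormulation n k s)
    (hP : ∀ f : Fin n → Fin h, P.Certifies (multipartite f) δ) :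
    δ ≤ (K : ℝ) ^ 2 * farE K H m₀ (l * r)
      + ((s + 1 : ℕ) : ℝ) * ((K : ℝ) ^ 2 * errE K H q D r l) := by
  classical
  obtain ⟨e⟩ : Nonempty ((Fin K × Fin q) ⊕ Fin (k - K) ↪ Fin n) := by
    apply Function.Embedding.nonempty_of_card_le
    simp only [Fintype.card_sum, Fintype.card_prod, Fintype.card_fin]
    exact hn
  obtain ⟨cc⟩ : Nonempty (Fin H ⊕ Fin (k - K) ↪ Fin h) := by
    apply Function.Embedding.nonempty_of_card_le
    simp only [Fintype.card_sum, Fintype.card_fin]
    exact hh
  let c₀ : Fin h := cc (Sum.inl ⟨0, by omega⟩)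
  have hcard : ∀ x : Fin K → Fin q, (chosen e x).card = k := by
    intro x
    rw [chosen_card e.injective]
    omega
  choose w0 w hw0 hw hfac using fun y : Fin K → Fin q → Fin H =>
    certify_farkas P (hP (parts e cc c₀ y)) (chosen e (fun _ => ⟨0, hq⟩)) (hcard _)
  have := factor_bound (K := K) (H := H) (V := Fin q) hH (by rw [Fintype.card_fin]; exact hq)
    hr hl hD hm₀ hlr hsm (by rw [Fintype.card_fin]; exact hrq) hδ (R := s + 1)
    (fun j y => Fin.cases (w0 y) (fun i => w y i) j)
    (fun j x => Fin.cases (1 : ℝ)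
      (fun i => P.b i - ∑ k, P.A i k * P.point (chosen e x) k) j)
    (by
      intro j y
      refine Fin.cases ?_ (fun i => ?_) j
      · exact hw0 y
      · exact hw y i)
    (by
      intro j x
      refine Fin.cases ?_ (fun i => ?_) j
      · exact zero_le_one
      · have := (P.feasible (chosen e x) (hcard x)).1 i
        simp only [Fin.cases_succ]
        linarith)
    (by
      intro y x
      have h1 := hfac y (chosen e x) (hcard x)
      rw [missing_eq e.injective cc.injective] at h1
      rw [Fin.sum_univ_succ]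
      simp only [Fin.cases_zero, Fin.cases_succ]
      linarith)
  rw [Fintype.card_fin] at this
  exact this

end Pool.Agent.TH697.LPClique
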