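import Mathlib
import Pool.Agent.TH697.LPClique.Finite

/-!
Choice of the parameters.
-/

set_option autoImplicit false

namespace Pool.Agent.TH697.LPClique

open Finset Pool.Agent.TH689.LX

/-- The lower bound with explicit parameters: `K` blocks of `2 ^ (2 L a)` vertices. -/
theorem core {L a κ μ K n k h s : ℕ} (hL : 8 ≤ L) (hK : 2 * L ≤ K) (hκ : K ≤ 2 ^ κ)
    (hμ : 2 * L * a + κ + 2 ≤ 2 ^ μ) (ha1 : 16 * L * (κ + 2) ≤ a) (ha2 : 2 * (κ + μ + 1) ≤ a)
    (ha3 : 3 * κ + μ + 3 ≤ a) (hKk : K ≤ k) (hn : K * 2 ^ (2 * L * a) + (k - K) ≤ n)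
    (hh : (K - K / L) + (k - K) ≤ h) {δ : ℝ}
    (hδ : (2 : ℝ) ^ (-((a : ℝ) * K / (8 * L))) ≤ δ) (P : LPFormulation n k s)
    (hP : ∀ f : Fin n → Fin h, P.Certifies (multipartite f) δ) :
    (2 : ℝ) ^ ((1 - 4 / (L : ℝ)) * (2 * L * a * K)) ≤ ((s + 1 : ℕ) : ℝ) := by
  have hLpos : 0 < L := by omega
  set b := 2 * L * a with hb
  set m₀ := K / L with hm₀
  have hm₀2 : 2 ≤ m₀ := by
    rw [hm₀, Nat.le_div_iff_mul_le hLpos]; exact hK
  have hLm : L * m₀ ≤ K := Nat.mul_div_le K L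
  have hKL : K < L * (m₀ + 1) := Nat.lt_mul_div_succ K hLpos
  have h8m : 8 * m₀ ≤ K := (Nat.mul_le_mul_right _ hL).trans hLm
  have hK2m : K ≤ 2 * L * m₀ := by
    have : L * (m₀ + 1) ≤ L * (2 * m₀) := Nat.mul_le_mul_left _ (by omega)
    calc K ≤ L * (m₀ + 1) := hKL.le
      _ ≤ L * (2 * m₀) := this
      _ = 2 * L * m₀ := by ring
  set H := K - m₀ with hH
  set D := K - 2 * m₀ with hD
  have hHK : H ≤ K := by omega
  have hKR : (K : ℝ) ≤ 2 ^ κ := by exact_mod_cast hκ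
  have hHR : (H : ℝ) ≤ 2 ^ κ := by exact_mod_cast (hHK.trans hκ)
  have hK16 : 16 ≤ K := by omega
  set r : ℝ := (1 / 2 : ℝ) ^ a with hr
  have hr0 : 0 < r := by rw [hr]; positivity
  have hr2 : r = (2 : ℝ) ^ (-(a : ℝ)) := by
    rw [hr, Real.rpow_neg (by norm_num), Real.rpow_natCast, one_div, inv_pow]
  set l : ℝ := (2 : ℝ) ^ (κ + μ + 1) with hl
  have hl0 : 0 ≤ l := by rw [hl]; positivity
  have hl2 : l = (2 : ℝ) ^ ((κ : ℝ) + μ + 1) := by
    rw [hl, ← Real.rpow_natCast]; push_cast; rfl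
  have hlr : l * r = (2 : ℝ) ^ ((κ : ℝ) + μ + 1 - a) := by
    rw [hl2, hr2, ← Real.rpow_add (by norm_num)]; ring_nf
  have haR1 : (16 : ℝ) * L * (κ + 2) ≤ a := by exact_mod_cast ha1
  have haR2 : (2 : ℝ) * (κ + μ + 1) ≤ a := by exact_mod_cast ha2
  have haR3 : (3 : ℝ) * κ + μ + 3 ≤ a := by exact_mod_cast ha3
  have hκ0 : (0 : ℝ) ≤ κ := by positivity
  have hμ0 : (0 : ℝ) ≤ μ := by positivity
  have hlr0 : 0 ≤ l * r := by positivity
  have hlr1 : l * r ≤ 1 := by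
    rw [hlr]
    apply Real.rpow_le_one_of_one_le_of_nonpos (by norm_num)
    linarith
  -- smallness
  have hsm : (1 + 2 * H * (l * r)) ^ K ≤ 2 := by
    have h1 : 2 * (H : ℝ) * (l * r) * K ≤ 1 / 2 := by
      have e1 : (2 : ℝ) ^ κ = (2 : ℝ) ^ (κ : ℝ) := (Real.rpow_natCast _ _).symm
      calc 2 * (H : ℝ) * (l * r) * K ≤ 2 * 2 ^ κ * (l * r) * 2 ^ κ := by
            apply mul_le_mul _ hKR (by positivity) (by positivity)
            apply mul_le_mul_of_nonneg_right _ hlr0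
            exact mul_le_mul_of_nonneg_left hHR (by norm_num)
        _ = (2 : ℝ) ^ (1 + (κ : ℝ) + (κ + μ + 1 - a) + κ) := by
            rw [hlr, e1, Real.rpow_add (by norm_num), Real.rpow_add (by norm_num),
              Real.rpow_add (by norm_num), Real.rpow_one]
        _ ≤ (2 : ℝ) ^ (-1 : ℝ) := by
            apply Real.rpow_le_rpow_of_exponent_le (by norm_num)
            linarith
        _ = 1 / 2 := by rw [Real.rpow_neg_one]; norm_num
    have h2 : (1 + 2 * (H : ℝ) * (l * r)) ≤ Real.exp (2 * (H : ℝ) * (l * r)) := by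
      have := Real.add_one_le_exp (2 * (H : ℝ) * (l * r))
      linarith
    calc (1 + 2 * (H : ℝ) * (l * r)) ^ K ≤ Real.exp (2 * (H : ℝ) * (l * r)) ^ K :=
          pow_le_pow_left₀ (by positivity) h2 _
      _ = Real.exp (2 * (H : ℝ) * (l * r) * K) := by rw [← Real.exp_nat_mul]; ring_nf
      _ ≤ Real.exp (1 / 2) := Real.exp_le_exp.2 h1
      _ ≤ 2 := by
          have h3 := Real.exp_one_lt_d9
          have h4 : Real.exp (1 / 2) * Real.exp (1 / 2) = Real.exp 1 := by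
            rw [← Real.exp_add]; norm_num
          have h5 := Real.exp_pos (1 / 2 : ℝ)
          by_contra hcon
          push Not at hcon
          have h6 := mul_lt_mul'' hcon hcon (by norm_num) (by norm_num)
          linarith
  have hrq : r ^ 2 * ((2 ^ b : ℕ) : ℝ) = (2 : ℝ) ^ ((b : ℝ) - 2 * a) := by
    rw [hr2, ← Real.rpow_natCast ((2 : ℝ) ^ (-(a : ℝ))) 2, ← Real.rpow_mul (by norm_num)]
    push_cast
    rw [← Real.rpow_natCast 2 b, ← Real.rpow_add (by norm_num)]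
    ring_nf
  have hb2a : 2 * (a : ℝ) ≤ b := by
    have : 2 * a ≤ b := by
      rw [hb]; exact Nat.mul_le_mul_right a (by omega)
    exact_mod_cast this
  have hrq1 : 1 ≤ r ^ 2 * ((2 ^ b : ℕ) : ℝ) := by
    rw [hrq]
    apply Real.one_le_rpow (by norm_num)
    linarith
  have hδ0 : 0 ≤ δ := le_trans (by positivity) hδ
  have key := clique_finite (H := H) (q := 2 ^ b) (D := D) (m₀ := m₀) hKk hn hh (by omega)
    Nat.one_le_two_pow hr0 hl0 (by omega) (by omega) hlr1 hsm hrq1 hδ0 P hP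
  -- real quantities
  have hLR : (8 : ℝ) ≤ L := by exact_mod_cast hL
  have hLR0 : (0 : ℝ) < L := by linarith
  have hK16R : (16 : ℝ) ≤ K := by exact_mod_cast hK16
  have hK0 : (0 : ℝ) ≤ K := by linarith
  have ha0 : (0 : ℝ) ≤ a := by positivity
  have hpow4H : (4 * (H : ℝ)) ^ K ≤ (2 : ℝ) ^ (((κ : ℝ) + 2) * K : ℝ) := by
    have h1 : (4 * (H : ℝ)) ≤ 2 ^ (κ + 2) := by
      rw [pow_add]; linarith
    calc (4 * (H : ℝ)) ^ K ≤ (2 ^ (κ + 2)) ^ K := pow_le_pow_left₀ (by positivity) h1 _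
      _ = (2 : ℝ) ^ (((κ : ℝ) + 2) * K : ℝ) := by
          rw [← pow_mul, ← Real.rpow_natCast]
          congr 1
          push_cast
          ring
  have hKsq : (K : ℝ) ^ 2 ≤ (2 : ℝ) ^ (2 * (κ : ℝ)) := by
    calc (K : ℝ) ^ 2 ≤ (2 ^ κ) ^ 2 := pow_le_pow_left₀ (by positivity) hKR _
      _ = (2 : ℝ) ^ (2 * (κ : ℝ)) := by
          rw [← pow_mul, ← Real.rpow_natCast]
          congr 1
          push_cast
          ring
  have hKm : (K : ℝ) / (2 * L) ≤ m₀ := by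
    rw [div_le_iff₀ (by positivity)]
    have : (K : ℝ) ≤ 2 * L * m₀ := by exact_mod_cast hK2m
    linarith
  have hm₀R0 : (0 : ℝ) ≤ m₀ := by positivity
  -- a K / (8 L) is large
  have hbig : (K : ℝ) * (2 * κ + 4) ≤ a * K / (8 * L) := by
    rw [le_div_iff₀ (by positivity)]
    have := mul_le_mul_of_nonneg_right haR1 hK0
    linarith
  have h2κ : 2 * (κ : ℝ) + 1 ≤ K * (κ + 1) := by
    have := mul_le_mul_of_nonneg_right hK16R (by linarith : (0 : ℝ) ≤ κ + 1)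
    linarith
  -- the far part
  have hfar : (K : ℝ) ^ 2 * farE K H m₀ (l * r) ≤ δ / 2 := by
    have h1 : (l * r) ^ m₀ ≤ (2 : ℝ) ^ (-((a : ℝ) / 2) * m₀) := by
      calc (l * r) ^ m₀ ≤ ((2 : ℝ) ^ (-((a : ℝ) / 2))) ^ m₀ := by
            apply pow_le_pow_left₀ hlr0
            rw [hlr]
            apply Real.rpow_le_rpow_of_exponent_le (by norm_num)
            linarith
        _ = (2 : ℝ) ^ (-((a : ℝ) / 2) * m₀) := by
            rw [← Real.rpow_natCast, ← Real.rpow_mul (by norm_num)]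
    have h2 : (2 : ℝ) ^ K = (2 : ℝ) ^ (K : ℝ) := (Real.rpow_natCast _ _).symm
    unfold farE
    calc (K : ℝ) ^ 2 * (2 ^ K * (4 * (H : ℝ)) ^ K * (l * r) ^ m₀)
        ≤ (2 : ℝ) ^ (2 * (κ : ℝ)) * ((2 : ℝ) ^ (K : ℝ) * (2 : ℝ) ^ (((κ : ℝ) + 2) * K : ℝ)
          * (2 : ℝ) ^ (-((a : ℝ) / 2) * m₀)) := by
          rw [h2]
          apply mul_le_mul hKsq _ (by positivity) (by positivity)
          apply mul_le_mul _ h1 (by positivity) (by positivity)
          exact mul_le_mul_of_nonneg_left hpow4H (by positivity)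
      _ = (2 : ℝ) ^ (2 * (κ : ℝ) + ((K : ℝ) + ((κ : ℝ) + 2) * K + (-((a : ℝ) / 2) * m₀))) := by
          rw [← Real.rpow_add (by norm_num), ← Real.rpow_add (by norm_num),
            ← Real.rpow_add (by norm_num)]
      _ ≤ (2 : ℝ) ^ (-((a : ℝ) * K / (8 * L)) - 1) := by
          apply Real.rpow_le_rpow_of_exponent_le (by norm_num)
          have h3 : (a : ℝ) * K / (4 * L) ≤ (a : ℝ) / 2 * m₀ := by
            have := mul_le_mul_of_nonneg_left hKm (by positivity : (0 : ℝ) ≤ a / 2)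
            calc (a : ℝ) * K / (4 * L) = a / 2 * (K / (2 * L)) := by field_simp; ring
              _ ≤ _ := this
          have h4 : (a : ℝ) * K / (4 * L) = 2 * (a * K / (8 * L)) := by field_simp; ring
          linarith
      _ = (2 : ℝ) ^ (-((a : ℝ) * K / (8 * L))) / 2 := by
          rw [Real.rpow_sub (by norm_num), Real.rpow_one]
      _ ≤ δ / 2 := by linarith
  -- the tail
  have htail : tailB K H (2 ^ b) l ≤ 1 / (r ^ 2 * ((2 ^ b : ℕ) : ℝ)) ^ D := by
    rw [hrq, le_div_iff₀ (by positivity)]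
    have hl2K : 3 * (K : ℝ) * (b + κ + 2) ≤ l ^ 2 / 2 := by
      have h1 : (K : ℝ) * (b + κ + 2) ≤ 2 ^ (κ + μ) := by
        rw [pow_add]
        apply mul_le_mul hKR _ (by positivity) (by positivity)
        exact_mod_cast hμ
      have h2 : l = 2 * 2 ^ (κ + μ) := by rw [hl, pow_succ]; ring
      have h3 : (2 : ℝ) ≤ (K : ℝ) * (b + κ + 2) := by
        have h4 : (0 : ℝ) ≤ b := by positivity
        have h5 := mul_le_mul hK16R (by linarith : (2 : ℝ) ≤ b + κ + 2) (by norm_num) hK0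
        linarith
      rw [h2]
      have h6 : (2 : ℝ) ≤ 2 ^ (κ + μ) := h3.trans h1
      have h7 := mul_le_mul_of_nonneg_left h6 (by positivity : (0 : ℝ) ≤ 2 ^ (κ + μ))
      have e : (2 * (2 : ℝ) ^ (κ + μ)) ^ 2 / 2 = 2 * (2 ^ (κ + μ) * 2 ^ (κ + μ)) := by ring
      rw [e]
      linarith
    have hexp : Real.exp (-(l ^ 2 / 2)) ≤ (2 : ℝ) ^ (-(l ^ 2 / 2) : ℝ) := by
      rw [Real.exp_neg, Real.rpow_neg (by norm_num)]
      apply inv_anti₀ (by positivity)
      rw [← Real.exp_one_rpow]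
      apply Real.rpow_le_rpow (by norm_num) _ (by positivity)
      have := Real.exp_one_gt_d9
      linarith
    have h1 : (2 : ℝ) ^ K = (2 : ℝ) ^ (K : ℝ) := (Real.rpow_natCast _ _).symm
    have h2 : (H : ℝ) ^ K ≤ (2 : ℝ) ^ ((κ : ℝ) * K) := by
      calc (H : ℝ) ^ K ≤ (2 ^ κ) ^ K := pow_le_pow_left₀ (by positivity) hHR _
        _ = _ := by rw [← pow_mul, ← Real.rpow_natCast]; push_cast; rfl
    have h3 : (K : ℝ) ≤ (2 : ℝ) ^ (κ : ℝ) := by rw [Real.rpow_natCast]; exact hKR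
    have h4 : ((2 ^ b * H : ℕ) : ℝ) ^ K ≤ (2 : ℝ) ^ (((b : ℝ) + κ) * K) := by
      have h5 : ((2 ^ b * H : ℕ) : ℝ) ≤ 2 ^ (b + κ) := by
        push_cast
        rw [pow_add]
        exact mul_le_mul_of_nonneg_left hHR (by positivity)
      calc ((2 ^ b * H : ℕ) : ℝ) ^ K ≤ (2 ^ (b + κ)) ^ K := pow_le_pow_left₀ (by positivity) h5 _
        _ = _ := by rw [← pow_mul, ← Real.rpow_natCast]; push_cast; rfl
    have h5 : ((2 : ℝ) ^ ((b : ℝ) - 2 * a)) ^ D ≤ (2 : ℝ) ^ ((b : ℝ) * K) := by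
      calc ((2 : ℝ) ^ ((b : ℝ) - 2 * a)) ^ D ≤ ((2 : ℝ) ^ (b : ℝ)) ^ D := by
            apply pow_le_pow_left₀ (by positivity)
            apply Real.rpow_le_rpow_of_exponent_le (by norm_num)
            linarith
        _ ≤ ((2 : ℝ) ^ (b : ℝ)) ^ K := by
            apply pow_le_pow_right₀ _ (by omega)
            apply Real.one_le_rpow (by norm_num) (by positivity)
        _ = _ := by rw [← Real.rpow_natCast, ← Real.rpow_mul (by norm_num)]
    unfold tailB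
    calc 2 ^ K * (H : ℝ) ^ K * (2 * Real.exp (-(l ^ 2 / 2)) * (K * ((2 ^ b * H : ℕ) : ℝ) ^ K))
          * ((2 : ℝ) ^ ((b : ℝ) - 2 * a)) ^ D
        ≤ ((2 : ℝ) ^ (K : ℝ) * (2 : ℝ) ^ ((κ : ℝ) * K) * (2 * (2 : ℝ) ^ (-(l ^ 2 / 2) : ℝ)
          * ((2 : ℝ) ^ (κ : ℝ) * (2 : ℝ) ^ (((b : ℝ) + κ) * K)))) * (2 : ℝ) ^ ((b : ℝ) * K) := by
          rw [h1]
          apply mul_le_mul _ h5 (by positivity) (by positivity)
          apply mul_le_mul
          · exact mul_le_mul_of_nonneg_left h2 (by positivity)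
          · apply mul_le_mul
            · exact mul_le_mul_of_nonneg_left hexp (by norm_num)
            · exact mul_le_mul h3 h4 (by positivity) (by positivity)
            · positivity
            · positivity
          · positivity
          · positivity
      _ = (2 : ℝ) ^ ((K : ℝ) + κ * K + (1 + -(l ^ 2 / 2) + (κ + ((b : ℝ) + κ) * K))
          + b * K) := by
          rw [Real.rpow_add (by norm_num), Real.rpow_add (by norm_num),
            Real.rpow_add (by norm_num), Real.rpow_add (by norm_num),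
            Real.rpow_add (by norm_num), Real.rpow_add (by norm_num), Real.rpow_one]
      _ ≤ (2 : ℝ) ^ (0 : ℝ) := by
          apply Real.rpow_le_rpow_of_exponent_le (by norm_num)
          have h6 : (0 : ℝ) ≤ (b : ℝ) * K := by positivity
          have h7 := mul_le_mul_of_nonneg_left (by linarith : (1 : ℝ) ≤ K) hκ0
          linarith
      _ = 1 := Real.rpow_zero _
  have herr : (K : ℝ) ^ 2 * errE K H (2 ^ b) D r l
      ≤ (2 : ℝ) ^ (2 * (κ : ℝ) + ((κ : ℝ) + 2) * K + 1 - ((b : ℝ) - 2 * a) * D) := by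
    unfold errE
    have h1 : 1 / (r ^ 2 * ((2 ^ b : ℕ) : ℝ)) ^ D = (2 : ℝ) ^ (-(((b : ℝ) - 2 * a) * D)) := by
      rw [hrq, ← Real.rpow_natCast, ← Real.rpow_mul (by norm_num), one_div,
        ← Real.rpow_neg (by norm_num)]
    calc (K : ℝ) ^ 2 * ((4 * (H : ℝ)) ^ K * (tailB K H (2 ^ b) l
          + 1 / (r ^ 2 * ((2 ^ b : ℕ) : ℝ)) ^ D))
        ≤ (2 : ℝ) ^ (2 * (κ : ℝ)) * ((2 : ℝ) ^ (((κ : ℝ) + 2) * K : ℝ)
          * (2 * (2 : ℝ) ^ (-(((b : ℝ) - 2 * a) * D)))) := by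
          have hT0 : 0 ≤ tailB K H (2 ^ b) l := by unfold tailB; positivity
          have h2 : tailB K H (2 ^ b) l + 1 / (r ^ 2 * ((2 ^ b : ℕ) : ℝ)) ^ D
              ≤ 2 * (2 : ℝ) ^ (-(((b : ℝ) - 2 * a) * D)) := by
            rw [← h1]; linarith
          have h3 : 0 ≤ tailB K H (2 ^ b) l + 1 / (r ^ 2 * ((2 ^ b : ℕ) : ℝ)) ^ D := by
            rw [h1]; positivity
          apply mul_le_mul hKsq _ (mul_nonneg (by positivity) h3) (by positivity)
          exact mul_le_mul hpow4H h2 h3 (by positivity)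
      _ = _ := by
          have e : (2 * (κ : ℝ) + ((κ : ℝ) + 2) * K + 1 - ((b : ℝ) - 2 * a) * D)
              = 2 * (κ : ℝ) + (((κ : ℝ) + 2) * K + (1 + -(((b : ℝ) - 2 * a) * D))) := by ring
          rw [e, Real.rpow_add (by norm_num), Real.rpow_add (by norm_num),
            Real.rpow_add (by norm_num), Real.rpow_one]
  set E2 : ℝ := 2 * (κ : ℝ) + ((κ : ℝ) + 2) * K + 1 - ((b : ℝ) - 2 * a) * D with hE2
  have hmain : δ / 2 ≤ ((s + 1 : ℕ) : ℝ) * (2 : ℝ) ^ E2 := by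
    have h1 := mul_le_mul_of_nonneg_left herr (show (0 : ℝ) ≤ ((s + 1 : ℕ) : ℝ) by positivity)
    linarith
  have hs : (2 : ℝ) ^ (-((a : ℝ) * K / (8 * L)) - 1 - E2 : ℝ) ≤ ((s + 1 : ℕ) : ℝ) := by
    have e1 : (2 : ℝ) ^ (-((a : ℝ) * K / (8 * L)) - 1 - E2 : ℝ)
        = ((2 : ℝ) ^ (-((a : ℝ) * K / (8 * L))) / 2) / (2 : ℝ) ^ E2 := by
      rw [Real.rpow_sub (by norm_num), Real.rpow_sub (by norm_num), Real.rpow_one]
    rw [e1, div_le_iff₀ (by positivity)]
    linarith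
  refine le_trans ?_ hs
  apply Real.rpow_le_rpow_of_exponent_le (by norm_num)
  -- the exponent
  have hbR : (b : ℝ) = 2 * L * a := by rw [hb]; push_cast; ring
  have hDR : (D : ℝ) = K - 2 * m₀ := by
    rw [hD]
    push_cast [Nat.cast_sub (show 2 * m₀ ≤ K by omega)]
    ring
  have hm₀R : (m₀ : ℝ) ≤ K / L := by
    rw [le_div_iff₀ hLR0]
    have : (L : ℝ) * m₀ ≤ K := by exact_mod_cast hLm
    linarith
  have hD1 : (K : ℝ) * (1 - 2 / L) ≤ D := by
    rw [hDR]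
    have : (K : ℝ) * (1 - 2 / L) = K - 2 * (K / L) := by ring
    linarith
  have hb1 : (b : ℝ) - 2 * a = b * (1 - 1 / L) := by
    rw [hbR]; field_simp
  have h1L : 1 / (L : ℝ) ≤ 1 / 8 := by
    apply one_div_le_one_div_of_le (by norm_num) hLR
  have h1L0 : 0 ≤ 1 / (L : ℝ) := by positivity
  have hbD : (b : ℝ) * K * (1 - 3 * (1 / L)) ≤ ((b : ℝ) - 2 * a) * D := by
    rw [hb1]
    calc (b : ℝ) * K * (1 - 3 * (1 / L)) ≤ (b : ℝ) * K * ((1 - 1 / L) * (1 - 2 / L)) := by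
          apply mul_le_mul_of_nonneg_left _ (by positivity)
          have : (1 - 1 / (L : ℝ)) * (1 - 2 / L) = 1 - 3 * (1 / L) + 2 * (1 / L) ^ 2 := by ring
          rw [this]
          have : 0 ≤ 2 * (1 / (L : ℝ)) ^ 2 := by positivity
          linarith
      _ = (b : ℝ) * (1 - 1 / L) * (K * (1 - 2 / L)) := by ring
      _ ≤ (b : ℝ) * (1 - 1 / L) * D := by
          apply mul_le_mul_of_nonneg_left hD1
          apply mul_nonneg (by positivity)
          linarith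
  -- the error terms
  have herr2 : 2 * ((a : ℝ) * K / (8 * L)) ≤ (b : ℝ) * K * (1 / L) := by
    have e2 : (b : ℝ) * K * (1 / L) = 2 * a * K := by rw [hbR]; field_simp
    rw [e2]
    have e3 : 2 * ((a : ℝ) * K / (8 * L)) = (2 * a * K) * (1 / (8 * L)) := by field_simp
    rw [e3]
    have e4 : 1 / (8 * (L : ℝ)) ≤ 1 := by
      rw [div_le_one (by positivity)]; linarith
    have h0 : (0 : ℝ) ≤ 2 * a * K := by positivity
    have := mul_le_mul_of_nonneg_left e4 h0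
    linarith
  have e8 : (1 - 4 / (L : ℝ)) * (2 * L * a * K)
      = (b : ℝ) * K * (1 - 3 * (1 / L)) - (b : ℝ) * K * (1 / L) := by rw [hbR]; ring
  rw [e8, hE2]
  linarith

end Pool.Agent.TH697.LPClique
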