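import Mathlib
import Pool.Agent.TH697.LPClique.Core

/-!
The asymptotic lower bounds.
-/

set_option autoImplicit false

namespace Pool.Agent.TH697.LPClique

open Finset Filter

lemma sq_le_two_pow {x : ℕ} (hx : 4 ≤ x) : x ^ 2 ≤ 2 ^ x := by
  induction x, hx using Nat.le_induction with
  | base => norm_num
  | succ m hm ih =>
    have h1 : (m + 1) ^ 2 ≤ 2 * m ^ 2 := by nlinarith
    calc (m + 1) ^ 2 ≤ 2 * m ^ 2 := h1
      _ ≤ 2 * 2 ^ m := Nat.mul_le_mul_left _ ih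
      _ = 2 ^ (m + 1) := by rw [pow_succ]; ring

lemma log_small (C : ℕ) : ∃ G₀ : ℕ, ∀ G : ℕ, G₀ ≤ G → C * (Nat.log 2 (G + 2) + 3) ≤ G := by
  refine ⟨2 ^ (4 * C + 4), fun G hG => ?_⟩
  set x := Nat.log 2 (G + 2) with hx
  have h1 : 4 * C + 4 ≤ x := by
    rw [hx, Nat.le_log_iff_pow_le (by norm_num) (by omega)]
    omega
  have h2 : 2 ^ x ≤ G + 2 := Nat.pow_log_le_self 2 (by omega)
  have h3 := sq_le_two_pow (x := x) (by omega)
  have h4 : (4 * C + 4) * x ≤ x ^ 2 := by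
    rw [sq]; exact Nat.mul_le_mul_right _ h1
  nlinarith

/-- The general form: the lower bound for the number of inequalities is `n ^ ((1 - ε) K)` for every
`K ≤ k` which is at most a small power of `n`. -/
theorem lp_lower (ε : ℝ) (hε : 0 < ε) : ∃ c : ℕ, 2 ≤ c ∧ ∀ᶠ n : ℕ in atTop, ∀ K k : ℕ,
    c ≤ K → K ^ c ≤ n → K ≤ k → 2 * k ≤ n → ∀ (s : ℕ) (P : LPFormulation n k s),
      (∀ h : ℕ, c * h + K ≤ c * k → ∀ f : Fin n → Fin h,
        P.Certifies (multipartite f) ((n : ℝ) ^ (-((K : ℝ) / c)))) →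
      (n : ℝ) ^ ((1 - ε) * K) ≤ s := by
  obtain ⟨L, hL8, hLε⟩ : ∃ L : ℕ, 8 ≤ L ∧ 8 / (L : ℝ) ≤ min ε 1 := by
    obtain ⟨L, hL⟩ := exists_nat_gt (8 / min ε 1)
    have hm : 0 < min ε 1 := lt_min hε one_pos
    refine ⟨L + 8, by omega, ?_⟩
    rw [div_le_iff₀ (by positivity)]
    rw [div_lt_iff₀ hm] at hL
    push_cast
    linarith
  have hLpos : 0 < L := by omega
  obtain ⟨G₀, hG₀⟩ := log_small (16 * L)
  set c := 66 * L ^ 2 with hc
  have hLL : L ≤ L ^ 2 := by nlinarith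
  refine ⟨c, by nlinarith, ?_⟩
  filter_upwards [eventually_ge_atTop (2 ^ (G₀ + 4 * c + 8 * L ^ 2 + 8))] with n hn
  intro K k hcK hKn hKk hkn s P hP
  have hn0 : n ≠ 0 := by
    have : 0 < 2 ^ (G₀ + 4 * c + 8 * L ^ 2 + 8) := by positivity
    omega
  set G := Nat.log 2 n with hG
  have hGbig : G₀ + 4 * c + 8 * L ^ 2 + 8 ≤ G := by
    rw [hG, Nat.le_log_iff_pow_le (by norm_num) hn0]
    exact hn
  have hGn : 2 ^ G ≤ n := Nat.pow_log_le_self 2 hn0
  have hnG : n < 2 ^ (G + 1) := Nat.lt_pow_succ_log_self (by norm_num) n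
  have hKpos : K ≠ 0 := by
    have : 0 < c := by positivity
    omega
  set κ := Nat.log 2 K + 1 with hκ
  have hKκ : K < 2 ^ κ := Nat.lt_pow_succ_log_self (by norm_num) K
  have hcκ : c * (κ - 1) ≤ G := by
    rw [hG, Nat.le_log_iff_pow_le (by norm_num) hn0]
    have h1 : 2 ^ (κ - 1) ≤ K := Nat.pow_log_le_self 2 hKpos
    calc 2 ^ (c * (κ - 1)) = (2 ^ (κ - 1)) ^ c := by rw [← pow_mul, mul_comm]
      _ ≤ K ^ c := Nat.pow_le_pow_left h1 _
      _ ≤ n := hKn
  have hcκ' : c * κ ≤ G + c := by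
    have : κ = (κ - 1) + 1 := by omega
    rw [this, Nat.mul_add]
    omega
  set μ := Nat.log 2 (G + 2) + 1 with hμ
  have hμG : G + 2 < 2 ^ μ := Nat.lt_pow_succ_log_self (by norm_num) _
  have hμ2 : 16 * L * (μ + 2) ≤ G := by
    have h1 := hG₀ G (by omega)
    exact h1
  -- the bound for κ
  have hκs : 66 * (L ^ 2 * κ) ≤ G + c := by
    calc 66 * (L ^ 2 * κ) = c * κ := by rw [hc]; ring
      _ ≤ G + c := hcκ'
  have hκL : κ ≤ L ^ 2 * κ := Nat.le_mul_of_pos_left _ (by positivity)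
  have hκ1 : κ + 1 ≤ G := by omega
  set a := (G - 1 - κ) / (2 * L) with ha
  have ha_le : 2 * L * a ≤ G - 1 - κ := Nat.mul_div_le _ _
  have ha_lt : G - 1 - κ < 2 * L * (a + 1) := Nat.lt_mul_div_succ _ (by omega)
  have e1 : 2 * L * (a + 1) = 2 * (L * a) + 2 * L := by ring
  have e1' : 2 * L * a = 2 * (L * a) := by ring
  rw [e1] at ha_lt
  have h4La : G ≤ 4 * (L * a) := by omega
  have ha1 : 16 * L * (κ + 2) ≤ a := by
    have h1 : L * (16 * L * (κ + 2)) ≤ L * a := by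
      have e2 : L * (16 * L * (κ + 2)) = 16 * (L ^ 2 * κ) + 32 * L ^ 2 := by ring
      rw [e2]
      omega
    exact Nat.le_of_mul_le_mul_left h1 hLpos
  have hμa : 4 * (μ + 2) ≤ a := by
    have h1 : L * (4 * (μ + 2)) ≤ L * a := by
      have e2 : 16 * L * (μ + 2) = 4 * (L * (4 * (μ + 2))) := by ring
      omega
    exact Nat.le_of_mul_le_mul_left h1 hLpos
  have hκa : 8 * (κ + 2) ≤ a := by
    have : 8 * (κ + 2) ≤ 16 * L * (κ + 2) := Nat.mul_le_mul_right _ (by omega)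
    omega
  have hpow : K * 2 ^ (2 * L * a) + (k - K) ≤ n := by
    have h1 : K * 2 ^ (2 * L * a) ≤ 2 ^ κ * 2 ^ (G - 1 - κ) :=
      Nat.mul_le_mul hKκ.le (Nat.pow_le_pow_right (by norm_num) ha_le)
    have h2 : 2 ^ κ * 2 ^ (G - 1 - κ) = 2 ^ (G - 1) := by
      rw [← pow_add]; congr 1; omega
    have h3 : 2 ^ G = 2 * 2 ^ (G - 1) := by
      rw [← pow_succ']; congr 1; omega
    omega
  have hKL : 2 * L ≤ K := by
    have : 2 * L ≤ c := by rw [hc]; nlinarith
    omega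
  have hKdiv : K ≤ c * (K / L) := by
    have h1 : K < L * (K / L + 1) := Nat.lt_mul_div_succ K hLpos
    have h2 : 2 ≤ K / L := by
      rw [Nat.le_div_iff_mul_le hLpos]; exact hKL
    have h3 : L * (K / L + 1) ≤ L * (2 * (K / L)) := Nat.mul_le_mul_left _ (by omega)
    have h4 : L * (2 * (K / L)) ≤ c * (K / L) := by
      rw [← mul_assoc]
      exact Nat.mul_le_mul_right _ (by rw [hc]; nlinarith)
    omega
  have hcol : c * ((K - K / L) + (k - K)) + K ≤ c * k := by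
    have h1 : (K - K / L) + (k - K) + K / L = k := by
      have := Nat.div_le_self K L
      omega
    calc c * ((K - K / L) + (k - K)) + K ≤ c * ((K - K / L) + (k - K)) + c * (K / L) := by omega
      _ = c * ((K - K / L) + (k - K) + K / L) := by ring
      _ = c * k := by rw [h1]
  -- real numbers
  have hn1 : (1 : ℝ) ≤ n := by exact_mod_cast Nat.one_le_iff_ne_zero.2 hn0
  have hn2 : (n : ℝ) ≤ (2 : ℝ) ^ ((G : ℝ) + 1) := by
    have h1 : (n : ℝ) ≤ 2 ^ (G + 1) := by exact_mod_cast hnG.le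
    calc (n : ℝ) ≤ 2 ^ (G + 1) := h1
      _ = (2 : ℝ) ^ ((G : ℝ) + 1) := by rw [← Real.rpow_natCast]; push_cast; rfl
  have hLR : (8 : ℝ) ≤ L := by exact_mod_cast hL8
  have hLR0 : (0 : ℝ) < L := by linarith
  have hcR : (c : ℝ) = 66 * L ^ 2 := by rw [hc]; push_cast; ring
  have hcR0 : (0 : ℝ) < c := by rw [hcR]; positivity
  have hKR0 : (0 : ℝ) < K := by exact_mod_cast Nat.pos_of_ne_zero hKpos
  have h4LaR : (G : ℝ) ≤ 4 * (L * a) := by exact_mod_cast h4La
  have hGR : (8 : ℝ) ≤ G := by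
    have : 8 ≤ G := by omega
    exact_mod_cast this
  have hδ : (2 : ℝ) ^ (-((a : ℝ) * K / (8 * L))) ≤ (n : ℝ) ^ (-((K : ℝ) / c)) := by
    have h1 : ((2 : ℝ) ^ ((G : ℝ) + 1)) ^ (-((K : ℝ) / c)) ≤ (n : ℝ) ^ (-((K : ℝ) / c)) := by
      apply Real.rpow_le_rpow_of_nonpos (by linarith) hn2
      have : 0 ≤ (K : ℝ) / c := by positivity
      linarith
    refine le_trans ?_ h1
    rw [← Real.rpow_mul (by norm_num)]
    apply Real.rpow_le_rpow_of_exponent_le (by norm_num)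
    have h2 : ((G : ℝ) + 1) * (K / c) ≤ a * K / (8 * L) := by
      rw [mul_div_assoc', div_le_div_iff₀ hcR0 (by positivity), hcR]
      have h3 : ((G : ℝ) + 1) ≤ 8 * (L * a) := by linarith
      calc ((G : ℝ) + 1) * K * (8 * L) ≤ 8 * (L * a) * K * (8 * L) := by
            apply mul_le_mul_of_nonneg_right _ (by positivity)
            exact mul_le_mul_of_nonneg_right h3 hKR0.le
        _ = 64 * (a * K * L ^ 2) := by ring
        _ ≤ 66 * (a * K * L ^ 2) := by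
            have : (0 : ℝ) ≤ a * K * L ^ 2 := by positivity
            linarith
        _ = a * K * (66 * L ^ 2) := by ring
    linarith
  have hcore := core (L := L) (a := a) (κ := κ) (μ := μ) hL8 hKL hKκ.le (by omega) ha1 (by omega)
    (by omega) hKk hpow le_rfl hδ P (hP _ hcol)
  -- the exponents
  set ε' := min ε 1 with hε'
  have hε'1 : ε' ≤ 1 := min_le_right _ _
  have hκR : (κ : ℝ) ≤ G / c + 1 := by
    rw [← sub_le_iff_le_add, le_div_iff₀ hcR0]
    have : (c : ℝ) * κ ≤ G + c := by exact_mod_cast hcκ'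
    linarith
  have haR : (G : ℝ) - κ - 2 * L ≤ 2 * L * a := by
    have h1 : G ≤ 2 * (L * a) + 2 * L + κ := by omega
    have h2 : (G : ℝ) ≤ 2 * (L * a) + 2 * L + κ := by exact_mod_cast h1
    linarith
  have hexp : (1 - ε') * ((G : ℝ) + 1) + 1 ≤ (1 - 4 / (L : ℝ)) * (2 * L * a) := by
    have h4L : 4 / (L : ℝ) ≤ 1 / 2 := by
      rw [div_le_div_iff₀ hLR0 (by norm_num)]; linarith
    have hG2 : ((4 * c + 8 * L ^ 2 + 8 : ℕ) : ℝ) ≤ G := by
      have : 4 * c + 8 * L ^ 2 + 8 ≤ G := by omega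
      exact_mod_cast this
    push_cast at hG2
    rw [hcR] at hG2
    have h1 : (1 - 4 / (L : ℝ)) * (G - κ - 2 * L) ≤ (1 - 4 / (L : ℝ)) * (2 * L * a) :=
      mul_le_mul_of_nonneg_left haR (by linarith)
    refine le_trans ?_ h1
    have h2 : (1 - ε') * ((G : ℝ) + 1) ≤ (1 - 8 / L) * (G + 1) :=
      mul_le_mul_of_nonneg_right (by linarith) (by linarith)
    refine le_trans (add_le_add_left h2 1) ?_
    have h3 : (1 - 4 / (L : ℝ)) * (G - (G / c + 1) - 2 * L) ≤ (1 - 4 / (L : ℝ)) * (G - κ - 2 * L) :=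
      mul_le_mul_of_nonneg_left (by linarith) (by linarith)
    refine le_trans ?_ h3
    have h5 : (G : ℝ) / c ≤ G / L := by
      apply div_le_div_of_nonneg_left (by positivity) hLR0
      rw [hcR]; nlinarith
    have h6 : (1 - 4 / (L : ℝ)) * (G - (G / L + 1) - 2 * L)
        ≤ (1 - 4 / (L : ℝ)) * (G - (G / c + 1) - 2 * L) :=
      mul_le_mul_of_nonneg_left (by linarith) (by linarith)
    refine le_trans ?_ h6
    have e5 : (1 - 4 / (L : ℝ)) * (G - (G / L + 1) - 2 * L) - ((1 - 8 / L) * (G + 1) + 1)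
        = (3 * (G / L) + 4 * (G / L) / L) - 2 * L + 5 + 12 / L := by
      field_simp
      ring
    have h7 : 2 * (L : ℝ) ≤ 3 * (G / L) := by
      rw [mul_div_assoc', le_div_iff₀ hLR0]
      nlinarith
    have h8 : 0 ≤ 4 * ((G : ℝ) / L) / L := by positivity
    have h9 : 0 ≤ 12 / (L : ℝ) := by positivity
    linarith
  have hK1 : (1 : ℝ) ≤ K := by exact_mod_cast Nat.one_le_iff_ne_zero.2 hKpos
  have hfin : 2 * (n : ℝ) ^ ((1 - ε') * K) ≤ ((s + 1 : ℕ) : ℝ) := by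
    refine le_trans ?_ hcore
    have h1 : (n : ℝ) ^ ((1 - ε') * K) ≤ ((2 : ℝ) ^ ((G : ℝ) + 1)) ^ ((1 - ε') * K) :=
      Real.rpow_le_rpow (by linarith) hn2 (mul_nonneg (by linarith) hKR0.le)
    rw [← Real.rpow_mul (by norm_num)] at h1
    calc 2 * (n : ℝ) ^ ((1 - ε') * K) ≤ 2 * (2 : ℝ) ^ (((G : ℝ) + 1) * ((1 - ε') * K)) := by
          linarith
      _ = (2 : ℝ) ^ (1 + ((G : ℝ) + 1) * ((1 - ε') * K)) := by
          rw [Real.rpow_add (by norm_num), Real.rpow_one]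
      _ ≤ _ := by
          apply Real.rpow_le_rpow_of_exponent_le (by norm_num)
          have h2 := mul_le_mul_of_nonneg_right hexp hKR0.le
          have e6 : (1 - 4 / (L : ℝ)) * (2 * L * a * K) = (1 - 4 / (L : ℝ)) * (2 * L * a) * K := by
            ring
          rw [e6]
          have e7 : ((G : ℝ) + 1) * ((1 - ε') * K) = (1 - ε') * (G + 1) * K := by ring
          rw [e7]
          linarith
  have hone : (1 : ℝ) ≤ (n : ℝ) ^ ((1 - ε') * K) :=
    Real.one_le_rpow hn1 (mul_nonneg (by linarith) hKR0.le)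
  have hle : (n : ℝ) ^ ((1 - ε) * K) ≤ (n : ℝ) ^ ((1 - ε') * K) := by
    apply Real.rpow_le_rpow_of_exponent_le hn1
    apply mul_le_mul_of_nonneg_right _ hKR0.le
    have := min_le_left ε 1
    linarith
  push_cast at hfin
  linarith

end Pool.Agent.TH697.LPClique
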