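import Mathlib
import Pool.Agent.TH697.LPClique.Asym

/-!
The two forms of the asymptotic lower bound.
-/

set_option autoImplicit false

namespace Pool.Agent.TH697.LPClique

open Finset Filter

/-- small cliques: exhaustive search is optimal -/
theorem lp_small (ε : ℝ) (hε : 0 < ε) : ∃ c : ℕ, 0 < c ∧ ∀ᶠ n : ℕ in atTop, ∀ k : ℕ,
    c ≤ k → k ^ c ≤ n → ∀ (s : ℕ) (P : LPFormulation n k s),
      (∀ h : ℕ, c * h + k ≤ c * k → ∀ f : Fin n → Fin h,
        P.Certifies (multipartite f) ((n : ℝ) ^ (-((k : ℝ) / c)))) →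
      (n : ℝ) ^ ((1 - ε) * k) ≤ s := by
  obtain ⟨c, hc2, hc⟩ := lp_lower ε hε
  refine ⟨c, by omega, ?_⟩
  filter_upwards [hc] with n hn k hck hkn s P hP
  refine hn k k hck hkn le_rfl ?_ s P hP
  have h1 : k ^ 2 ≤ k ^ c := Nat.pow_le_pow_right (by omega) hc2
  have h2 : 2 * k ≤ k ^ 2 := by nlinarith
  omega

lemma certifies_mono {n k s : ℕ} {P : LPFormulation n k s} {G : SimpleGraph (Fin n)} {δ δ' : ℝ}
    (h : δ ≤ δ') (hP : P.Certifies G δ') : P.Certifies G δ := by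
  obtain ⟨w, w₀, h1, h2⟩ := hP
  exact ⟨w, w₀, h1, fun u hu hu' => h.trans (h2 u hu hu')⟩

/-- large cliques: exponentially many inequalities -/
theorem lp_large (γ : ℝ) (hγ : 0 < γ) : ∃ c : ℕ, 0 < c ∧ ∀ᶠ n : ℕ in atTop, ∀ k : ℕ,
    (n : ℝ) ^ γ ≤ k → 2 * k ≤ n → ∀ (s : ℕ) (P : LPFormulation n k s),
      (∀ f : Fin n → Fin (k - 1),
        P.Certifies (multipartite f) ((2 : ℝ) ^ (-((n : ℝ) ^ (1 / (c : ℝ)))))) →
      (2 : ℝ) ^ ((n : ℝ) ^ (1 / (c : ℝ))) ≤ s := by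
  obtain ⟨c₀, hc2, hc₀⟩ := lp_lower (1 / 2) (by norm_num)
  obtain ⟨c₁, hc₁, hcγ⟩ : ∃ c₁ : ℕ, c₀ ≤ c₁ ∧ 1 / (c₁ : ℝ) ≤ γ := by
    obtain ⟨m, hm⟩ := exists_nat_gt (1 / γ)
    refine ⟨m + c₀, by omega, ?_⟩
    have hm0 : (0 : ℝ) < m := lt_trans (by positivity) hm
    rw [div_le_iff₀ (by positivity)]
    rw [div_lt_iff₀ hγ] at hm
    push_cast
    have : 0 ≤ γ * c₀ := by positivity
    linarith
  have hc₁0 : 0 < c₁ := by omega
  have hc₁R : (0 : ℝ) < c₁ := by exact_mod_cast hc₁0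
  refine ⟨2 * c₁, by omega, ?_⟩
  -- the quantity T = n ^ (1 / (2 c₁)) tends to infinity
  have hT : Tendsto (fun n : ℕ => (n : ℝ) ^ (1 / ((2 * c₁ : ℕ) : ℝ))) atTop atTop :=
    (tendsto_rpow_atTop (by positivity)).comp tendsto_natCast_atTop_atTop
  filter_upwards [hc₀, hT.eventually_ge_atTop (4 * c₀ + 4), eventually_ge_atTop 2]
    with n hn hTn hn2 k hk hkn s P hP
  set T : ℝ := (n : ℝ) ^ (1 / ((2 * c₁ : ℕ) : ℝ)) with hTdef
  have hn0 : (0 : ℝ) < n := by exact_mod_cast (by omega : 0 < n)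
  have hn1 : (1 : ℝ) ≤ n := by exact_mod_cast (by omega : 1 ≤ n)
  have hn2R : (2 : ℝ) ≤ n := by exact_mod_cast hn2
  have hT2 : T * T = (n : ℝ) ^ (1 / (c₁ : ℝ)) := by
    rw [hTdef, ← Real.rpow_add hn0]
    congr 1
    push_cast
    field_simp
    norm_num
  have hc₀R : (2 : ℝ) ≤ c₀ := by exact_mod_cast hc2
  have hT1 : 12 ≤ T := by linarith
  set K : ℕ := ⌊T * T⌋₊ with hK
  have hTT0 : 0 ≤ T * T := by positivity
  have hKle : (K : ℝ) ≤ T * T := Nat.floor_le hTT0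
  have hKge : T * T < K + 1 := Nat.lt_floor_add_one _
  have hKT : (2 * c₀ + 2) * T ≤ K := by
    have h1 : (4 * c₀ + 4) * T ≤ T * T := mul_le_mul_of_nonneg_right hTn (by linarith)
    have h2 : 1 ≤ (2 * (c₀ : ℝ) + 2) * T := by nlinarith
    linarith
  have hcK : c₀ ≤ K := by
    have : (c₀ : ℝ) ≤ K := by nlinarith
    exact_mod_cast this
  have hKn : K ^ c₀ ≤ n := by
    have h1 : (K : ℝ) ^ c₀ ≤ n := by
      calc (K : ℝ) ^ c₀ ≤ ((n : ℝ) ^ (1 / (c₁ : ℝ))) ^ c₀ := by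
            apply pow_le_pow_left₀ (by positivity)
            rw [← hT2]; exact hKle
        _ = (n : ℝ) ^ ((c₀ : ℝ) / c₁) := by
            rw [← Real.rpow_natCast, ← Real.rpow_mul hn0.le]
            ring_nf
        _ ≤ (n : ℝ) ^ (1 : ℝ) := by
            apply Real.rpow_le_rpow_of_exponent_le hn1
            rw [div_le_one hc₁R]
            exact_mod_cast hc₁
        _ = n := Real.rpow_one _
    exact_mod_cast h1
  have hKk : K ≤ k := by
    have h1 : (K : ℝ) ≤ k := by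
      calc (K : ℝ) ≤ (n : ℝ) ^ (1 / (c₁ : ℝ)) := by rw [← hT2]; exact hKle
        _ ≤ (n : ℝ) ^ γ := Real.rpow_le_rpow_of_exponent_le hn1 hcγ
        _ ≤ k := hk
    exact_mod_cast h1
  have hK0 : 0 < K := by omega
  have hmain := hn K k hcK hKn hKk hkn s P (by
    intro h hh f
    have hhk : h ≤ k - 1 := by
      have h1 : c₀ * h < c₀ * k := by omega
      have := Nat.lt_of_mul_lt_mul_left h1
      omega
    have h2 := hP (fun v => Fin.castLE hhk (f v))
    have h3 : multipartite (fun v => Fin.castLE hhk (f v)) = multipartite f := by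
      unfold multipartite
      ext a b
      simp only [SimpleGraph.comap_adj, SimpleGraph.top_adj, ne_eq]
      rw [(Fin.castLE_injective hhk).eq_iff]
    rw [h3] at h2
    refine certifies_mono ?_ h2
    -- n ^ (- K / c₀) ≤ 2 ^ (- T)
    calc (n : ℝ) ^ (-((K : ℝ) / c₀)) ≤ (2 : ℝ) ^ (-((K : ℝ) / c₀)) := by
          apply Real.rpow_le_rpow_of_nonpos (by norm_num) hn2R
          have : 0 ≤ (K : ℝ) / c₀ := by positivity
          linarith
      _ ≤ (2 : ℝ) ^ (-T) := by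
          apply Real.rpow_le_rpow_of_exponent_le (by norm_num)
          have : T ≤ (K : ℝ) / c₀ := by
            rw [le_div_iff₀ (by linarith)]
            nlinarith
          linarith)
  refine le_trans ?_ hmain
  calc (2 : ℝ) ^ T ≤ (2 : ℝ) ^ ((1 - 1 / 2 : ℝ) * K) := by
        apply Real.rpow_le_rpow_of_exponent_le (by norm_num)
        nlinarith
    _ ≤ (n : ℝ) ^ ((1 - 1 / 2 : ℝ) * K) := by
        apply Real.rpow_le_rpow (by norm_num) hn2R (by positivity)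

end Pool.Agent.TH697.LPClique
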