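import Mathlib
import Pool.Agent.TH697.LPClique.Defs

/-!
Exhaustive search as a linear programming formulation, and a small semidefinite programming
formulation.
-/

set_option autoImplicit false

namespace Pool.Agent.TH697.LPClique

open Finset

/-- exhaustive search as a linear programming formulation -/
theorem lp_upper (n k : ℕ) : ∃ P : LPFormulation n k (n.choose k),
    ∀ (G : SimpleGraph (Fin n)) (δ : ℝ),
      (∀ S : Finset (Fin n), S.card = k → δ ≤ missing G S) → P.Certifies G δ := by
  classical
  have hcard : Fintype.card {S : Finset (Fin n) // S.card = k} = n.choose k := by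
    rw [Fintype.card_finset_len, Fintype.card_fin]
  let e : {S : Finset (Fin n) // S.card = k} ≃ Fin (n.choose k) := Fintype.equivFinOfCardEq hcard
  refine ⟨{ d := n.choose k, t := 1, A := fun i j => if j = i then -1 else 0, b := fun _ => 0,
            A' := fun _ _ => 1, b' := fun _ => 1,
            point := fun S j => if hS : S.card = k then (if j = e ⟨S, hS⟩ then 1 else 0) else 0,
            feasible := ?_ }, ?_⟩
  · intro S hS
    refine ⟨fun i => ?_, fun _ => ?_⟩
    · simp only [hS, dite_true, ite_mul, zero_mul, Finset.sum_ite_eq', Finset.mem_univ, if_true]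
      split_ifs <;> norm_num
    · simp [hS]
  · intro G δ hG
    refine ⟨fun j => missing G (e.symm j).1, 0, ?_, ?_⟩
    · intro S hS
      simp [hS]
    · intro u hu hu'
      have h0 : ∀ j, 0 ≤ u j := by
        intro j
        have := hu j
        simp only [ite_mul, zero_mul, Finset.sum_ite_eq', Finset.mem_univ, if_true] at this
        linarith
      have h1 : ∑ j, u j = 1 := by
        have := hu' 0
        simpa using this
      simp only [add_zero]
      calc δ = ∑ j, δ * u j := by rw [← Finset.mul_sum, h1, mul_one]
        _ ≤ ∑ j, (missing G (e.symm j).1 : ℝ) * u j :=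
          Finset.sum_le_sum (fun j _ => mul_le_mul_of_nonneg_right
            (hG _ (e.symm j).2) (h0 j))

/-- the matrix with given entries -/
def toMat {n : ℕ} (u : Fin (n * n) → ℝ) : Matrix (Fin n) (Fin n) ℝ :=
  fun a b => u (finProdFinEquiv (a, b))

/-- the sum over all pairs -/
lemma sum_pairs {n : ℕ} (u : Fin (n * n) → ℝ) (g : Fin n × Fin n → ℝ) :
    ∑ j, g (finProdFinEquiv.symm j) * u j = ∑ a, ∑ b, g (a, b) * toMat u a b := by
  rw [← Equiv.sum_comp finProdFinEquiv, Fintype.sum_prod_type]
  simp [toMat]

/-- the matrix unit -/
def unitMat {n : ℕ} (j : Fin (n * n)) : Matrix (Fin n) (Fin n) ℝ :=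
  fun a b => if finProdFinEquiv (a, b) = j then 1 else 0

lemma sum_unitMat {n : ℕ} (u : Fin (n * n) → ℝ) :
    (0 : Matrix (Fin n) (Fin n) ℝ) + ∑ j, u j • unitMat j = toMat u := by
  ext a b
  rw [zero_add, Matrix.sum_apply]
  simp [unitMat, toMat, Matrix.smul_apply]

/-- the inequality behind the semidefinite program -/
lemma psd_classes {n h : ℕ} (hh : 0 < h) (f : Fin n → Fin h) (X : Matrix (Fin n) (Fin n) ℝ)
    (hX : X.PosSemidef) :
    (∑ a, ∑ b, X a b) / h ≤ ∑ a, ∑ b, (if f a = f b then X a b else 0) := by
  have h1 : ∀ c : Fin h, 0 ≤ ∑ a, ∑ b,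
      ((if f a = c then (1 : ℝ) else 0) - 1 / h) * (X a b * ((if f b = c then (1 : ℝ) else 0) - 1 / h))
      := by
    intro c
    have := hX.dotProduct_mulVec_nonneg
      (fun a => (if f a = c then (1 : ℝ) else 0) - 1 / h)
    simp only [dotProduct, Matrix.mulVec, Pi.star_apply, star_trivial, Finset.mul_sum] at this
    exact this
  have h2 : 0 ≤ ∑ c : Fin h, ∑ a, ∑ b,
      ((if f a = c then (1 : ℝ) else 0) - 1 / h) * (X a b * ((if f b = c then (1 : ℝ) else 0) - 1 / h))
      := Finset.sum_nonneg (fun c _ => h1 c)
  have hhR : (h : ℝ) ≠ 0 := by exact_mod_cast hh.ne'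
  have h3 : ∑ c : Fin h, ∑ a, ∑ b,
      ((if f a = c then (1 : ℝ) else 0) - 1 / h) * (X a b * ((if f b = c then (1 : ℝ) else 0) - 1 / h))
      = ∑ a, ∑ b, ((if f a = f b then X a b else 0) - X a b / h) := by
    rw [Finset.sum_comm]
    apply Finset.sum_congr rfl
    intro a _
    rw [Finset.sum_comm]
    apply Finset.sum_congr rfl
    intro b _
    have e1 : ∀ c : Fin h,
        ((if f a = c then (1 : ℝ) else 0) - 1 / h) * (X a b * ((if f b = c then (1 : ℝ) else 0) - 1 / h))
        = (if f a = c then (if f b = c then X a b else 0) else 0)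
          - (if f a = c then X a b / h else 0) - (if f b = c then X a b / h else 0)
          + X a b / h / h := by
      intro c
      split_ifs <;> ring
    rw [Finset.sum_congr rfl (fun c _ => e1 c)]
    rw [Finset.sum_add_distrib, Finset.sum_sub_distrib, Finset.sum_sub_distrib]
    simp only [Finset.sum_ite_eq, Finset.mem_univ, if_true, Finset.sum_const, Finset.card_univ,
      Fintype.card_fin, nsmul_eq_mul]
    have e2 : (if f b = f a then X a b else 0) = (if f a = f b then X a b else 0) := by
      simp only [eq_comm]
    rw [e2]
    field_simp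
    ring
  rw [h3] at h2
  simp only [Finset.sum_sub_distrib] at h2
  simp only [Finset.sum_div]
  linarith

/-- the indicator matrix of a set -/
lemma sdp_missing {n : ℕ} (G : SimpleGraph (Fin n)) [DecidableRel G.Adj] (S : Finset (Fin n)) :
    ∑ a, ∑ b, (if a < b ∧ ¬ G.Adj a b then (1 : ℝ) else 0)
      * ((if a ∈ S then (1 : ℝ) else 0) * (if b ∈ S then 1 else 0)) = missing G S := by
  classical
  unfold missing
  rw [Finset.card_filter]
  push_cast
  rw [Finset.sum_product]
  rw [← Finset.sum_subset (Finset.subset_univ S)]
  · apply Finset.sum_congr rfl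
    intro a ha
    rw [← Finset.sum_subset (Finset.subset_univ S)]
    · apply Finset.sum_congr rfl
      intro b hb
      simp [ha, hb]
    · intro b _ hb
      simp [hb]
  · intro a _ ha
    simp [ha]

theorem sdp_upper (n k : ℕ) : ∃ P : SDPFormulation n k n (n * n),
    ∀ (G : SimpleGraph (Fin n)) (h : ℕ), 0 < h → G.Colorable h →
      P.Certifies G ((k : ℝ) * (k - h) / (2 * h)) := by
  classical
  refine ⟨{ d := n * n, t := 2, M₀ := 0, M := unitMat,
            A := fun i j => if j = i then -1 else 0, b := fun _ => 0,
            A' := fun i j => if i = 0 then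
              (if (finProdFinEquiv.symm j).1 = (finProdFinEquiv.symm j).2 then 1 else 0) else 1,
            b' := fun i => if i = 0 then k else (k : ℝ) ^ 2,
            point := fun S j => (if (finProdFinEquiv.symm j).1 ∈ S then (1 : ℝ) else 0)
              * (if (finProdFinEquiv.symm j).2 ∈ S then 1 else 0),
            feasible := ?_ }, ?_⟩
  · intro S hS
    have hmat : toMat (fun j : Fin (n * n) => (if (finProdFinEquiv.symm j).1 ∈ S then (1 : ℝ) else 0)
              * (if (finProdFinEquiv.symm j).2 ∈ S then 1 else 0))
        = Matrix.vecMulVec (fun a => if a ∈ S then (1 : ℝ) else 0)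
            (star (fun a => if a ∈ S then (1 : ℝ) else 0)) := by
      ext a b
      simp [toMat, Matrix.vecMulVec_apply]
    refine ⟨?_, ?_, ?_⟩
    · rw [sum_unitMat, hmat]
      exact Matrix.posSemidef_vecMulVec_self_star _
    · intro i
      simp only [ite_mul, zero_mul, Finset.sum_ite_eq', Finset.mem_univ, if_true]
      split_ifs <;> norm_num
    · intro i
      fin_cases i
      · simp only [Fin.zero_eta, if_true]
        rw [sum_pairs (fun j : Fin (n * n) => (if (finProdFinEquiv.symm j).1 ∈ S then (1 : ℝ) else 0)
              * (if (finProdFinEquiv.symm j).2 ∈ S then 1 else 0))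
          (fun p => if p.1 = p.2 then 1 else 0)]
        simp [toMat, hS]
      · simp only [Fin.mk_one, one_ne_zero, if_false]
        rw [sum_pairs (fun j : Fin (n * n) => (if (finProdFinEquiv.symm j).1 ∈ S then (1 : ℝ) else 0)
              * (if (finProdFinEquiv.symm j).2 ∈ S then 1 else 0)) (fun _ => 1)]
        simp [toMat, hS, sq]
  · intro G h hh hcol
    obtain ⟨f⟩ := hcol
    refine ⟨fun j => if (finProdFinEquiv.symm j).1 < (finProdFinEquiv.symm j).2 ∧
      ¬ G.Adj (finProdFinEquiv.symm j).1 (finProdFinEquiv.symm j).2 then 1 else 0, 0, ?_, ?_⟩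
    · intro S hS
      rw [add_zero, ← sdp_missing G S]
      rw [sum_pairs (fun j : Fin (n * n) => (if (finProdFinEquiv.symm j).1 ∈ S then (1 : ℝ) else 0)
              * (if (finProdFinEquiv.symm j).2 ∈ S then 1 else 0))
          (fun p => if p.1 < p.2 ∧ ¬ G.Adj p.1 p.2 then 1 else 0)]
      simp [toMat]
    · intro u hpsd hnn heq
      simp only at hpsd hnn heq
      rw [sum_unitMat] at hpsd
      rw [add_zero, sum_pairs u (fun p => if p.1 < p.2 ∧ ¬ G.Adj p.1 p.2 then 1 else 0)]
      have h0 : ∀ a b, 0 ≤ toMat u a b := by
        intro a b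
        have := hnn (finProdFinEquiv (a, b))
        simp only [ite_mul, zero_mul, Finset.sum_ite_eq', Finset.mem_univ, if_true] at this
        unfold toMat
        linarith
      have htr : ∑ a, toMat u a a = k := by
        have h1 := heq 0
        simp only [if_true] at h1
        rw [sum_pairs u (fun p => if p.1 = p.2 then 1 else 0)] at h1
        simpa using h1
      have hsum : ∑ a, ∑ b, toMat u a b = (k : ℝ) ^ 2 := by
        have h1 := heq 1
        simp only [one_ne_zero, if_false] at h1
        rw [sum_pairs u (fun _ => 1)] at h1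
        simpa using h1
      have hsym : ∀ a b, toMat u a b = toMat u b a := by
        intro a b
        have := congrFun (congrFun hpsd.isHermitian a) b
        simpa [Matrix.conjTranspose_apply] using this.symm
      have h1 := psd_classes hh f (toMat u) hpsd
      rw [hsum] at h1
      -- split the sum over the pairs of one class
      have h2 : ∑ a, ∑ b, (if f a = f b then toMat u a b else 0)
          = 2 * ∑ a, ∑ b, (if a < b ∧ f a = f b then toMat u a b else 0) + k := by
        have e1 : ∀ a b, (if f a = f b then toMat u a b else 0)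
            = (if a < b ∧ f a = f b then toMat u a b else 0)
              + (if b < a ∧ f b = f a then toMat u b a else 0)
              + (if a = b then toMat u a b else 0) := by
          intro a b
          rcases lt_trichotomy a b with hab | hab | hab
          · have h3 : ¬ b < a := not_lt.2 hab.le
            have h4 : a ≠ b := ne_of_lt hab
            simp [hab, h3, h4]
          · subst hab
            simp
          · have h3 : ¬ a < b := not_lt.2 hab.le
            have h4 : a ≠ b := (ne_of_lt hab).symm
            simp only [h3, false_and, if_false, hab, true_and, h4, add_zero, zero_add]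
            rw [hsym a b]
            simp only [eq_comm]
        simp only [e1, Finset.sum_add_distrib]
        have e2 : ∑ a : Fin n, ∑ b : Fin n, (if b < a ∧ f b = f a then toMat u b a else 0)
            = ∑ a, ∑ b, (if a < b ∧ f a = f b then toMat u a b else 0) := Finset.sum_comm
        have e3 : ∑ a : Fin n, ∑ b : Fin n, (if a = b then toMat u a b else 0) = k := by
          rw [← htr]
          simp
        rw [e2, e3]
        ring
      have h3 : ∑ a, ∑ b, (if a < b ∧ f a = f b then toMat u a b else 0)
          ≤ ∑ a, ∑ b, (if a < b ∧ ¬ G.Adj a b then (1 : ℝ) else 0) * toMat u a b := by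
        apply Finset.sum_le_sum
        intro a _
        apply Finset.sum_le_sum
        intro b _
        by_cases hab : a < b ∧ f a = f b
        · have hnadj : ¬ G.Adj a b := fun hadj => f.valid hadj hab.2
          rw [if_pos hab, if_pos ⟨hab.1, hnadj⟩, one_mul]
        · rw [if_neg hab]
          apply mul_nonneg _ (h0 a b)
          split_ifs <;> norm_num
      have hhR : (0 : ℝ) < h := by exact_mod_cast hh
      rw [h2] at h1
      have h4 : (k : ℝ) ^ 2 / h - k ≤
          2 * ∑ a, ∑ b, (if a < b ∧ ¬ G.Adj a b then (1 : ℝ) else 0) * toMat u a b := by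
        linarith
      have e5 : (k : ℝ) * (k - h) / (2 * h) = ((k : ℝ) ^ 2 / h - k) / 2 := by
        field_simp
      rw [e5]
      linarith

end Pool.Agent.TH697.LPClique
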